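import Pool.Agent.helper28.Hartogs.HomStrong2

/-!
# Discrete spectrum of the de Rham Laplacians on the Hartogs triangle

For every degree `q = p + 1 ≥ 1` (in particular for `q = 1, 2, 3`) both Laplacians
`Δ = d d* + d* d` and `Δ_s = d_s d_s* + d_s* d_s` on square-integrable `q`-forms on the Hartogs
triangle have discrete spectrum.
-/

set_option autoImplicit false

namespace Pool.Agent.Results.MP_3d295c_an.DiscreteSpectrum

open Pool.Agent.helper28.Hartogs

theorem result (p : ℕ) :
    HasDiscreteSpectrum (laplacianOf (weakD p) (weakD (p + 1))) ∧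
      HasDiscreteSpectrum (laplacianOf (strongD p) (strongD (p + 1))) :=
  ⟨discrete_of_homotopy (isClosed_weakD p) (isClosed_weakD (p + 1))
      (fun _ _ h => weakD_comp h) (opS p) (opS (p + 1)) (opQ (p + 1)) (cc_opS p)
      (cc_opS (p + 1)) (cc_opQ (p + 1)) (hom_weak p),
    discrete_of_homotopy (isClosed_strongD p) (isClosed_strongD (p + 1))
      (fun _ _ h => strongD_comp h) (opS p) (opS (p + 1)) (opQ (p + 1)) (cc_opS p)
      (cc_opS (p + 1)) (cc_opQ (p + 1)) (hom_strong p)⟩

end Pool.Agent.Results.MP_3d295c_an.DiscreteSpectrum
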